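import Pool.Agent.Helper654.PtakN

set_option autoImplicit false

open Complex Metric Set Polynomial
open scoped ComplexConjugate

namespace Pool.Agent.Results.MP_cf143d_an.QuotientNorm

/-- `H^∞` of the open unit disc. -/
def Hinf : Set (ℂ → ℂ) :=
  {g | DifferentiableOn ℂ g (ball 0 1) ∧ ∃ K : ℝ, ∀ z ∈ ball (0 : ℂ) 1, ‖g z‖ ≤ K}

/-- The supremum norm over the disc. -/
noncomputable def supNorm (g : ℂ → ℂ) : ℝ := sSup {x | ∃ z ∈ ball (0 : ℂ) 1, x = ‖g z‖}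

/-- The quotient norm `‖h + p H^∞‖`. -/
noncomputable def qnorm (h : ℂ → ℂ) (p : ℂ[X]) : ℝ :=
  sInf {x | ∃ g ∈ Hinf, x = supNorm (fun z => h z - p.eval z * g z)}

/-- `P_{n,r}`: polynomials of degree `n` all of whose zeros lie in `|z| ≤ r`. -/
def P (n : ℕ) (r : ℝ) : Set ℂ[X] := {p | p.degree = n ∧ ∀ z : ℂ, p.eval z = 0 → ‖z‖ ≤ r}

/-- `M_h(n, r)`. -/
noncomputable def M (h : ℂ → ℂ) (n : ℕ) (r : ℝ) : ℝ := sSup {x | ∃ p ∈ P n r, x = qnorm h p}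

/-- The explicit upper triangular Toeplitz operator `T_a` on `ℂ^n`: diagonal entries `a`, and entry
`(1 - |a|^2) (-conj a)^(j-i-1)` in row `i` and column `j` for `i < j`. -/
noncomputable def Top (n : ℕ) (a : ℂ) : EuclideanSpace ℂ (Fin n) →L[ℂ] EuclideanSpace ℂ (Fin n) :=
  Matrix.toEuclideanCLM (𝕜 := ℂ) (Matrix.of fun i j : Fin n => if i = j then a else if i < j then
    ((1 - ‖a‖ ^ 2 : ℝ) : ℂ) * (-(conj a)) ^ ((j : ℕ) - (i : ℕ) - 1) else 0)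

/-- `‖h(T_a)‖`, where `h(T_a)` is given by the Taylor series of `h` at `0`. -/
noncomputable def normAt (n : ℕ) (h : ℂ → ℂ) (a : ℂ) : ℝ :=
  ‖∑' k : ℕ, (iteratedDeriv k h 0 / (k.factorial : ℂ)) • (Top n a) ^ k‖

/-- `a` is a point of the circle `|a| = r` at which `‖h(T_a)‖` is largest. -/
def IsMaxPoint (n : ℕ) (r : ℝ) (h : ℂ → ℂ) (a : ℂ) : Prop :=
  ‖a‖ = r ∧ ∀ b : ℂ, ‖b‖ = r → normAt n h b ≤ normAt n h a

/-- `p` is a polynomial in `P_{n,r}` at which the supremum `M_h(n, r)` is attained. -/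
def IsMaximiser (n : ℕ) (r : ℝ) (h : ℂ → ℂ) (p : ℂ[X]) : Prop :=
  p ∈ P n r ∧ (∀ q ∈ P n r, qnorm h q ≤ qnorm h p) ∧ M h n r = qnorm h p

lemma supNorm_nonneg (g : ℂ → ℂ) : 0 ≤ supNorm g := by
  apply Real.sSup_nonneg
  rintro x ⟨z, _, rfl⟩
  exact norm_nonneg _

lemma le_supNorm {g : ℂ → ℂ} {K : ℝ} (hK : ∀ z ∈ ball (0 : ℂ) 1, ‖g z‖ ≤ K) {z : ℂ} (hz : z ∈ ball (0 : ℂ) 1) :
    ‖g z‖ ≤ supNorm g := by
  apply le_csSup
  · refine ⟨K, ?_⟩
    rintro x ⟨w, hw, rfl⟩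
    exact hK w hw
  · exact ⟨z, hz, rfl⟩

lemma supNorm_le {g : ℂ → ℂ} {K : ℝ} (hK : ∀ z ∈ ball (0 : ℂ) 1, ‖g z‖ ≤ K) : supNorm g ≤ K := by
  apply csSup_le
  · exact ⟨‖g 0‖, 0, mem_ball_self one_pos, rfl⟩
  · rintro x ⟨w, hw, rfl⟩
    exact hK w hw

lemma poly_bound (p : ℂ[X]) : ∃ K : ℝ, 0 ≤ K ∧ ∀ z ∈ ball (0 : ℂ) 1, ‖p.eval z‖ ≤ K := by
  obtain ⟨K, hK⟩ := (isCompact_closedBall (0 : ℂ) 1).exists_bound_of_continuousOn
    (f := fun z => p.eval z) p.continuous.continuousOn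
  exact ⟨|K|, abs_nonneg K, fun z hz => (hK z (ball_subset_closedBall hz)).trans (le_abs_self K)⟩

lemma diff_bound {h g : ℂ → ℂ} (hh : h ∈ Hinf) (hg : g ∈ Hinf) (p : ℂ[X]) :
    ∃ K : ℝ, ∀ z ∈ ball (0 : ℂ) 1, ‖h z - p.eval z * g z‖ ≤ K := by
  obtain ⟨K1, hK1⟩ := hh.2
  obtain ⟨K2, hK2⟩ := hg.2
  obtain ⟨K3, hK30, hK3⟩ := poly_bound p
  refine ⟨K1 + K3 * K2, fun z hz => ?_⟩
  refine (norm_sub_le _ _).trans (add_le_add (hK1 z hz) ?_)
  rw [norm_mul]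
  exact mul_le_mul (hK3 z hz) (hK2 z hz) (norm_nonneg _) hK30

lemma qnorm_le {h g : ℂ → ℂ} (hg : g ∈ Hinf) (p : ℂ[X]) {γ : ℝ}
    (hb : ∀ z ∈ ball (0 : ℂ) 1, ‖h z - p.eval z * g z‖ ≤ γ) : qnorm h p ≤ γ := by
  have hbb : BddBelow {x | ∃ g ∈ Hinf, x = supNorm (fun z => h z - p.eval z * g z)} := by
    refine ⟨0, ?_⟩
    rintro x ⟨g', _, rfl⟩
    exact supNorm_nonneg _
  exact (csInf_le hbb ⟨g, hg, rfl⟩).trans (supNorm_le hb)

lemma le_qnorm {h : ℂ → ℂ} (p : ℂ[X]) {γ : ℝ}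
    (hb : ∀ g ∈ Hinf, γ ≤ supNorm (fun z => h z - p.eval z * g z)) : γ ≤ qnorm h p := by
  apply le_csInf
  · exact ⟨_, fun _ => 0, ⟨by fun_prop, 0, by simp⟩, rfl⟩
  · rintro x ⟨g, hg, rfl⟩
    exact hb g hg

/-- If `h - p g` is bounded on the disc, then so is `g`. -/
lemma bounded_of {r : ℝ} (hr0 : 0 < r) (hr1 : r < 1) (p : ℂ[X]) (hp : ∀ z : ℂ, p.eval z = 0 → ‖z‖ ≤ r)
    {h g : ℂ → ℂ} (hh : h ∈ Hinf) (hg : DifferentiableOn ℂ g (ball 0 1)) {γ : ℝ}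
    (hb : ∀ z ∈ ball (0 : ℂ) 1, ‖h z - p.eval z * g z‖ ≤ γ) : g ∈ Hinf := by
  refine ⟨hg, ?_⟩
  obtain ⟨K1, hK1⟩ := hh.2
  set t : ℝ := (1 + r) / 2 with ht
  have ht1 : t < 1 := by rw [ht]; linarith
  have htr : r < t := by rw [ht]; linarith
  have ht0 : 0 < t := by linarith
  obtain ⟨K2, hK2⟩ := (isCompact_closedBall (0 : ℂ) t).exists_bound_of_continuousOn
    (hg.continuousOn.mono (closedBall_subset_ball ht1))
  -- lower bound of |p| on the annulus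
  set S : Set ℂ := closedBall 0 1 ∩ {z | t ≤ ‖z‖} with hS
  have hSc : IsCompact S := (isCompact_closedBall (0 : ℂ) 1).inter_right
    (isClosed_le continuous_const continuous_norm)
  have hSne : S.Nonempty := ⟨1, by simp, by simpa using ht1.le⟩
  obtain ⟨w, hw, hmin⟩ := hSc.exists_isMinOn hSne (f := fun z => ‖p.eval z‖) (p.continuous.norm.continuousOn)
  have hw0 : 0 < ‖p.eval w‖ := by
    rw [norm_pos_iff]
    intro h0
    have h1 := hp w h0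
    have h2 : t ≤ ‖w‖ := hw.2
    linarith
  refine ⟨max K2 ((K1 + γ) / ‖p.eval w‖), fun z hz => ?_⟩
  by_cases hzt : ‖z‖ ≤ t
  · exact (hK2 z (mem_closedBall_zero_iff.mpr hzt)).trans (le_max_left _ _)
  · push Not at hzt
    have hzS : z ∈ S := ⟨ball_subset_closedBall hz, hzt.le⟩
    have h1 : ‖p.eval w‖ ≤ ‖p.eval z‖ := hmin hzS
    have h2 : ‖p.eval z * g z‖ ≤ K1 + γ := by
      have e : p.eval z * g z = h z - (h z - p.eval z * g z) := by ring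
      rw [e]
      exact (norm_sub_le _ _).trans (add_le_add (hK1 z hz) (hb z hz))
    rw [norm_mul] at h2
    refine le_trans ?_ (le_max_right _ _)
    rw [le_div_iff₀ hw0]
    nlinarith [norm_nonneg (g z)]

theorem result (n : ℕ) (hn : 1 ≤ n) (r : ℝ) (hr0 : 0 < r) (hr1 : r < 1) :
    (∀ h ∈ Hinf, (∃ a : ℂ, IsMaxPoint n r h a) ∧
      ∀ a : ℂ, IsMaxPoint n r h a → IsMaximiser n r h ((X - C a) ^ n) ∧ M h n r = normAt n h a) ∧
    ∀ m : ℕ, IsMaximiser n r (fun z => z ^ m) ((X - C (r : ℂ)) ^ n) ∧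
      M (fun z => z ^ m) n r = ‖(Top n (r : ℂ)) ^ m‖ := by
  obtain ⟨k, rfl⟩ : ∃ k, n = k + 1 := ⟨n - 1, by omega⟩
  have hmemP : ∀ a : ℂ, ‖a‖ = r → (X - C a) ^ (k + 1) ∈ P (k + 1) r := by
    intro a ha
    refine ⟨?_, ?_⟩
    · rw [degree_pow, degree_X_sub_C]; simp
    · intro z hz
      rw [eval_pow, eval_sub, eval_X, eval_C] at hz
      have h1 : z - a = 0 := by
        by_contra hne
        exact pow_ne_zero _ hne hz
      have h2 : z = a := by linear_combination h1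
      rw [h2, ha]
  -- easy direction
  have easy : ∀ h ∈ Hinf, ∀ a : ℂ, ‖a‖ = r → normAt (k + 1) h a ≤ qnorm h ((X - C a) ^ (k + 1)) := by
    intro h hh a ha
    apply le_qnorm
    intro g hg
    obtain ⟨K, hK⟩ := diff_bound hh hg ((X - C a) ^ (k + 1))
    have h1 := Pool.Agent.Helper654.Ptak.lemmaE (m := k) hr0 hr1 hh.1 hg.1 ((X - C a) ^ (k + 1)) 0
      (Pool.Agent.Helper654.Ptak.Uop (k + 1) a) (Pool.Agent.Helper654.Ptak.Uop_norm (k + 1) a (by rw [ha]; exact hr1.le))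
      (hmemP a ha).2 (Pool.Agent.Helper654.Ptak.Uop_annih (k + 1) a)
      (supNorm (fun z => h z - ((X - C a) ^ (k + 1)).eval z * g z)) (by
        intro z hz
        rw [eval_zero, sub_zero]
        exact le_supNorm hK (mem_ball_zero_iff.mpr hz))
    rw [map_zero, sub_zero] at h1
    exact h1
  -- main
  have main : ∀ h ∈ Hinf, ∃ a₀ : ℂ, ‖a₀‖ = r ∧ ∀ p ∈ P (k + 1) r, qnorm h p ≤ normAt (k + 1) h a₀ := by
    intro h hh
    obtain ⟨a₀, ha₀, hmain⟩ := Pool.Agent.Helper654.Ptak.hard (m := k) hr0 hr1 hh.1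
    refine ⟨a₀, ha₀, ?_⟩
    intro p hp
    apply le_of_forall_gt_imp_ge_of_dense
    intro γ hγ
    have hsplit := IsAlgClosed.splits p
    have hnat : p.natDegree = k + 1 := natDegree_eq_of_degree_eq_some hp.1
    have hp0 : p ≠ 0 := by
      intro h0
      rw [h0, natDegree_zero] at hnat
      omega
    obtain ⟨l, hl⟩ : ∃ l : List ℂ, (l : Multiset ℂ) = p.roots := Quotient.exists_rep _
    have hlen : l.length = k + 1 := by
      rw [← Multiset.coe_card, hl, ← hsplit.natDegree_eq_card_roots, hnat]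
    have hlr : ∀ z ∈ l, ‖z‖ ≤ r := by
      intro z hz
      have h1 : z ∈ p.roots := by rw [← hl]; exact Multiset.mem_coe.mpr hz
      exact hp.2 z (mem_roots'.mp h1).2
    have hprod : p = C p.leadingCoeff * Pool.Agent.Helper654.Ptak.lp l := by
      conv_lhs => rw [hsplit.eq_prod_roots]
      rw [← hl, Multiset.map_coe, Multiset.prod_coe]
      rfl
    have hlc : p.leadingCoeff ≠ 0 := leadingCoeff_ne_zero.mpr hp0
    obtain ⟨g, hg, hgb⟩ := hmain l hlen hlr γ hγ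
    have hgb' : ∀ z ∈ ball (0 : ℂ) 1, ‖h z - p.eval z * (p.leadingCoeff⁻¹ * g z)‖ ≤ γ := by
      intro z hz
      have e : p.eval z * (p.leadingCoeff⁻¹ * g z) = (Pool.Agent.Helper654.Ptak.lp l).eval z * g z := by
        have e1 : p.eval z = p.leadingCoeff * (Pool.Agent.Helper654.Ptak.lp l).eval z := by
          conv_lhs => rw [hprod]
          rw [eval_mul, eval_C]
        rw [e1]
        field_simp
      rw [e]
      exact hgb z hz
    have hgd : DifferentiableOn ℂ (fun z => p.leadingCoeff⁻¹ * g z) (ball 0 1) := hg.const_mul _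
    exact qnorm_le (bounded_of hr0 hr1 p hp.2 hh hgd hgb') p hgb'
  have full : ∀ h ∈ Hinf, (∃ a : ℂ, IsMaxPoint (k + 1) r h a) ∧
      ∀ a : ℂ, IsMaxPoint (k + 1) r h a → IsMaximiser (k + 1) r h ((X - C a) ^ (k + 1)) ∧
        M h (k + 1) r = normAt (k + 1) h a := by
    intro h hh
    obtain ⟨a₀, ha₀, hmain⟩ := main h hh
    have hmax : ∀ b : ℂ, ‖b‖ = r → normAt (k + 1) h b ≤ normAt (k + 1) h a₀ := fun b hb =>
      (easy h hh b hb).trans (hmain _ (hmemP b hb))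
    refine ⟨⟨a₀, ha₀, hmax⟩, ?_⟩
    intro a ha
    have h1 : ∀ q ∈ P (k + 1) r, qnorm h q ≤ normAt (k + 1) h a := fun q hq => (hmain q hq).trans (ha.2 a₀ ha₀)
    have h2 : qnorm h ((X - C a) ^ (k + 1)) = normAt (k + 1) h a :=
      le_antisymm (h1 _ (hmemP a ha.1)) (easy h hh a ha.1)
    have h3 : IsGreatest {x | ∃ p ∈ P (k + 1) r, x = qnorm h p} (normAt (k + 1) h a) := by
      refine ⟨⟨_, hmemP a ha.1, h2.symm⟩, ?_⟩
      rintro x ⟨q, hq, rfl⟩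
      exact h1 q hq
    have h4 : M h (k + 1) r = normAt (k + 1) h a := h3.csSup_eq
    exact ⟨⟨hmemP a ha.1, fun q hq => by rw [h2]; exact h1 q hq, by rw [h4, h2]⟩, h4⟩
  refine ⟨full, ?_⟩
  intro m
  have hmem : (fun z : ℂ => z ^ m) ∈ Hinf := by
    refine ⟨by fun_prop, 1, fun z hz => ?_⟩
    rw [norm_pow]
    exact pow_le_one₀ (norm_nonneg z) (mem_ball_zero_iff.mp hz).le
  have hrn : ‖(r : ℂ)‖ = r := by rw [norm_real, Real.norm_eq_abs, abs_of_pos hr0]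
  have hval : ∀ a : ℂ, normAt (k + 1) (fun z => z ^ m) a = ‖(Top (k + 1) a) ^ m‖ := fun a =>
    congrArg norm (Pool.Agent.Helper654.Ptak.fc_pow m (Top (k + 1) a))
  have hmp : IsMaxPoint (k + 1) r (fun z => z ^ m) (r : ℂ) := by
    refine ⟨hrn, fun b hb => ?_⟩
    rw [hval, hval]
    exact (Pool.Agent.Helper654.Ptak.Uop_pow_circle hr0 b hb m).le
  obtain ⟨h1, h2⟩ := (full _ hmem).2 _ hmp
  exact ⟨h1, by rw [h2, hval]⟩

end Pool.Agent.Results.MP_cf143d_an.QuotientNorm
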